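import Pool.Agent.Q275.GQ.Stm

/-!
JOB KEY of the project GQ: a finite Fourier sum.
-/

set_option autoImplicit false

namespace Pool.Agent.Q275.GQ.Key

open Finset
open scoped ComplexConjugate

theorem e_add (a b : ℝ) : e (a + b) = e a * e b := by
  unfold e
  rw [← Complex.exp_add]
  congr 1
  push_cast
  ring

theorem e_zero : e 0 = 1 := by
  unfold e; simp

theorem e_int (n : ℤ) : e n = 1 := by
  unfold e
  rw [Complex.exp_eq_one_iff]
  exact ⟨n, by push_cast; ring⟩

theorem e_conj (a : ℝ) : conj (e a) = e (-a) := by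
  unfold e
  rw [← Complex.exp_conj]
  congr 1
  simp [map_ofNat]

theorem e_nat_mul (a : ℝ) (i : ℕ) : e (i * a) = e a ^ i := by
  unfold e
  rw [← Complex.exp_nat_mul]
  congr 1
  push_cast
  ring

theorem gsum {q : ℕ} (hq : 0 < q) (k : ℤ) (t : ℝ) :
    ∑ i ∈ range q, e (k * ((i - t) / q)) =
      if (q : ℤ) ∣ k then q * e (-(k * t / q)) else 0 := by
  have hqR : (q : ℝ) ≠ 0 := by exact_mod_cast hq.ne'
  have h1 : ∀ i ∈ range q, e (k * ((i - t) / q)) = e (-(k * t / q)) * e (k / q) ^ i := by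
    intro i _
    rw [← e_nat_mul, ← e_add]
    congr 1
    field_simp
    ring
  rw [Finset.sum_congr rfl h1, ← Finset.mul_sum]
  split_ifs with h
  · obtain ⟨j, rfl⟩ := h
    have h2 : e (((q : ℤ) * j : ℤ) / q) = 1 := by
      rw [← e_int j]
      congr 1
      push_cast
      field_simp
    rw [h2]
    simp [mul_comm]
  · have h2 : e (k / q) ≠ 1 := by
      intro h3
      unfold e at h3
      rw [Complex.exp_eq_one_iff] at h3
      obtain ⟨n, hn⟩ := h3
      apply h
      have h4 : ((k / q : ℝ) : ℂ) = n := by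
        have h5 : (2 * Real.pi * Complex.I : ℂ) ≠ 0 := by
          simp [Real.pi_ne_zero]
        have h6 : (2 * Real.pi * Complex.I : ℂ) * ((k / q : ℝ) : ℂ) =
            (2 * Real.pi * Complex.I : ℂ) * n := by
          rw [hn]; ring
        exact mul_left_cancel₀ h5 h6
      have h5 : (k / q : ℝ) = n := by exact_mod_cast h4
      refine ⟨n, ?_⟩
      have h6 : (k : ℝ) = q * n := by
        rw [← h5]; field_simp
      exact_mod_cast h6
    have h3 : e (k / q) ^ q = 1 := by
      rw [← e_nat_mul, ← e_int k]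
      congr 1
      field_simp
    rw [geom_sum_eq h2, h3, sub_self, zero_div, mul_zero]

theorem key : S_KEY := by
  intro P x y s t
  obtain ⟨q, hq⟩ : ∃ q : ℕ, P.a0 = q := ⟨P.a0.toNat, (Int.toNat_of_nonneg P.a0_pos.le).symm⟩
  have hq0 : 0 < q := by have := P.a0_pos; omega
  have hqR : (q : ℝ) ≠ 0 := by exact_mod_cast hq0.ne'
  have hqC : (q : ℂ) ≠ 0 := by exact_mod_cast hq0.ne'
  have haR : (P.a0 : ℝ) = q := by rw [hq]; simp
  have haC : (P.a0 : ℂ) = q := by rw [hq]; simp
  have haN : P.a0.toNat = q := by rw [hq]; simp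
  obtain ⟨m, hm⟩ : ∃ m : ℤ, m = P.a1 * y + P.a2 * x := ⟨_, rfl⟩
  obtain ⟨ρ, hρ⟩ : ∃ ρ : ℕ, m % q = ρ :=
    ⟨(m % q).toNat, (Int.toNat_of_nonneg (Int.emod_nonneg _ (by omega))).symm⟩
  have hρlt : ρ < q := by
    have := Int.emod_lt_of_pos m (b := (q : ℤ)) (by omega)
    omega
  obtain ⟨Z, hZ⟩ : ∃ Z : ℤ, Z = m / q := ⟨_, rfl⟩
  have hmZ : m = ρ + q * Z := by
    rw [← hρ, hZ]
    exact (Int.emod_add_mul_ediv m q).symm
  have hdig : dig P (x, y) = ρ := by
    unfold dig
    simp only
    rw [← hm, hq, hρ]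
  have hA1 : (A P (x, y)).1 = y := rfl
  have hA2 : (A P (x, y)).2 = -Z := by
    unfold A
    simp only
    rw [← hm, hq, hZ]
  have hB1 : (B P (x, y)).1 = y := rfl
  have hB2 : (B P (x, y)).2 = -Z - 1 := by
    unfold B
    simp only
    rw [← hm, hq, hZ]
  rw [hdig, hA1, hA2, hB1, hB2, haN, haR]
  -- one term
  have h1 : ∀ σ : ℝ, ((‖mm P σ‖ ^ 2 : ℝ) : ℂ) * e (x * (P.a2 * σ) + y * (s + P.a1 * σ)) =
      (e (y * s) * (1 / (q : ℂ) ^ 2)) *
        ∑ d ∈ range q, ∑ d' ∈ range q, e (((d : ℤ) - d' + m : ℤ) * σ) := by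
    intro σ
    have e1 : ((‖mm P σ‖ ^ 2 : ℝ) : ℂ) = mm P σ * conj (mm P σ) := by
      rw [Complex.mul_conj']
      push_cast
      rfl
    have e2 : e (x * (P.a2 * σ) + y * (s + P.a1 * σ)) = e (y * s) * e (m * σ) := by
      rw [← e_add]
      congr 1
      rw [hm]
      push_cast
      ring
    rw [e1, e2]
    unfold mm
    rw [haC, haN, map_mul, map_sum]
    have e3 : conj (1 / (q : ℂ)) = 1 / (q : ℂ) := by simp
    rw [e3]
    have e4 : ∀ d' ∈ range q, conj (e (d' * σ)) = e (-(d' * σ)) := fun d' _ => e_conj _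
    rw [Finset.sum_congr rfl e4]
    have e5 : (1 / (q : ℂ) * ∑ d ∈ range q, e (d * σ)) * (1 / (q : ℂ) *
        ∑ d' ∈ range q, e (-(d' * σ))) * (e (y * s) * e (m * σ)) =
        (e (y * s) * (1 / (q : ℂ) ^ 2)) * (((∑ d ∈ range q, e (d * σ)) *
          ∑ d' ∈ range q, e (-(d' * σ))) * e (m * σ)) := by
      rw [one_div, one_div]
      ring
    rw [e5, Finset.sum_mul_sum, Finset.sum_mul]
    congr 1
    refine Finset.sum_congr rfl fun d _ => ?_
    rw [Finset.sum_mul]
    refine Finset.sum_congr rfl fun d' _ => ?_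
    rw [← e_add, ← e_add]
    congr 1
    push_cast
    ring
  have h2 : ∀ i ∈ range q, ((‖mm P ((i - t) / q)‖ ^ 2 : ℝ) : ℂ) *
      e (x * (P.a2 * ((i - t) / q)) + y * (s + P.a1 * ((i - t) / q))) =
      (e (y * s) * (1 / (q : ℂ) ^ 2)) *
        ∑ d ∈ range q, ∑ d' ∈ range q, e (((d : ℤ) - d' + m : ℤ) * ((i - t) / q)) :=
    fun i _ => h1 _
  rw [Finset.sum_congr rfl h2, ← Finset.mul_sum, Finset.sum_comm]
  have h3 : ∀ d ∈ range q, ∑ i ∈ range q, ∑ d' ∈ range q,
      e (((d : ℤ) - d' + m : ℤ) * ((i - t) / q)) =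
      if d + ρ < q then (q : ℂ) * e (-(Z * t)) else (q : ℂ) * e (-((Z + 1) * t)) := by
    intro d hd
    rw [Finset.mem_range] at hd
    rw [Finset.sum_comm]
    have h4 : ∀ d' ∈ range q, ∑ i ∈ range q, e (((d : ℤ) - d' + m : ℤ) * ((i - t) / q)) =
        if (q : ℤ) ∣ ((d : ℤ) - d' + m) then
          q * e (-((((d : ℤ) - d' + m : ℤ) : ℝ) * t / q)) else 0 :=
      fun d' _ => gsum hq0 _ t
    rw [Finset.sum_congr rfl h4]
    split_ifs with h5
    · rw [Finset.sum_eq_single (d + ρ)]
      · have e1 : ((d : ℤ) - ((d + ρ : ℕ) : ℤ) + m) = q * Z := by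
          rw [hmZ]; push_cast; ring
        rw [e1, if_pos (dvd_mul_right _ _)]
        congr 2
        push_cast
        field_simp
      · intro d' hd' hne
        rw [Finset.mem_range] at hd'
        rw [if_neg]
        rintro ⟨j, hj⟩
        apply hne
        have h6 : (d : ℤ) + ρ - d' = q * (j - Z) := by
          rw [mul_sub, ← hj, hmZ]; ring
        have h7 : j - Z = 0 := by
          by_contra h0
          rcases lt_or_gt_of_ne h0 with h8 | h8
          · have : (q : ℤ) * (j - Z) ≤ q * (-1) :=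
              mul_le_mul_of_nonneg_left (by omega) (by omega)
            omega
          · have : (q : ℤ) * 1 ≤ q * (j - Z) :=
              mul_le_mul_of_nonneg_left (by omega) (by omega)
            omega
        rw [h7, mul_zero] at h6
        omega
      · intro h6
        exact absurd (Finset.mem_range.2 h5) h6
    · rw [Finset.sum_eq_single (d + ρ - q)]
      · have e1 : ((d : ℤ) - ((d + ρ - q : ℕ) : ℤ) + m) = q * (Z + 1) := by
          rw [hmZ, Nat.cast_sub (by omega)]; push_cast; ring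
        rw [e1, if_pos (dvd_mul_right _ _)]
        congr 2
        push_cast
        field_simp
      · intro d' hd' hne
        rw [Finset.mem_range] at hd'
        rw [if_neg]
        rintro ⟨j, hj⟩
        apply hne
        have h6 : (d : ℤ) + ρ - q - d' = q * (j - Z - 1) := by
          rw [mul_sub, mul_sub, ← hj, hmZ]; ring
        have h7 : j - Z - 1 = 0 := by
          by_contra h0
          rcases lt_or_gt_of_ne h0 with h8 | h8
          · have : (q : ℤ) * (j - Z - 1) ≤ q * (-1) :=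
              mul_le_mul_of_nonneg_left (by omega) (by omega)
            omega
          · have : (q : ℤ) * 1 ≤ q * (j - Z - 1) :=
              mul_le_mul_of_nonneg_left (by omega) (by omega)
            omega
        rw [h7, mul_zero] at h6
        omega
      · intro h6
        exact absurd (Finset.mem_range.2 (by omega)) h6
  rw [Finset.sum_congr rfl h3]
  have e1 : (range q).filter (fun d => d + ρ < q) = range (q - ρ) := by
    ext d
    simp only [mem_filter, mem_range]
    omega
  have e2 : (range q).filter (fun d => ¬ d + ρ < q) = Ico (q - ρ) q := by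
    ext d
    simp only [mem_filter, mem_range, mem_Ico]
    omega
  rw [Finset.sum_ite, e1, e2, Finset.sum_const, Finset.sum_const, Finset.card_range, Nat.card_Ico,
    nsmul_eq_mul, nsmul_eq_mul, Nat.sub_sub_self hρlt.le, Nat.cast_sub hρlt.le, e_add, e_add]
  have e3 : (((-Z : ℤ) : ℝ) * t) = -(Z * t) := by push_cast; ring
  have e4 : (((-Z - 1 : ℤ) : ℝ) * t) = -((Z + 1) * t) := by push_cast; ring
  rw [e3, e4]
  push_cast
  field_simp

end Pool.Agent.Q275.GQ.Key
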